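import Pool.Agent.Helper76.TX.StAn

/-!
# Project TX, module AN4: the Fourier expansion of `hX`
-/

set_option autoImplicit false

open UpperHalfPlane CongruenceSubgroup
open scoped MatrixGroups

namespace Pool.Agent.Helper13.TX

open Pool.Agent.Helper76.TX Pool.Agent.Helper14.CV

private lemma exp_split (D m u : ℕ) (y : ℝ) :
    Complex.exp (2 * Real.pi * Complex.I * m * ((u : ℂ) / (D : ℂ) + (y : ℂ) * Complex.I)) =
      Complex.exp (2 * Real.pi * Complex.I * m * ((u : ℂ) / (D : ℂ))) *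
        (Real.exp (-(2 * Real.pi * m) * y) : ℂ) := by
  rw [Complex.ofReal_exp, ← Complex.exp_add]
  congr 1
  push_cast
  have hI : Complex.I * Complex.I = -1 := Complex.I_mul_I
  linear_combination (2 * (Real.pi : ℂ) * m * y) * hI

/-- AN4. -/
theorem hAN4 : StAN4 := by
  intro hA1 hAN3 N hN f D hD χ hχ y hy
  have hDpos : 0 < D := Nat.pos_of_ne_zero hD.out
  have h1 : ∀ u ∈ Finset.range D, HasSum (fun m : ℕ => χ⁻¹ (u : ZMod D) * (fc f m *
      Complex.exp (2 * Real.pi * Complex.I * m * ((u : ℂ) / (D : ℂ) + (y : ℂ) * Complex.I))))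
      (χ⁻¹ (u : ZMod D) * hU D f u y) := by
    intro u _
    have him : 0 < ((u : ℂ) / (D : ℂ) + (y : ℂ) * Complex.I).im := by
      have h2 : ((u : ℂ) / (D : ℂ)).im = 0 := by
        have h3 : ((u : ℂ) / (D : ℂ)) = (((u : ℝ) / (D : ℝ) : ℝ) : ℂ) := by push_cast; ring
        rw [h3, Complex.ofReal_im]
      rw [Complex.add_im, h2]
      simpa using hy
    exact ((hA1 N hN f _ him).2.1).mul_left _
  have h2 := hasSum_sum h1
  have h3 : (fun m : ℕ => ∑ u ∈ Finset.range D, χ⁻¹ (u : ZMod D) * (fc f m *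
      Complex.exp (2 * Real.pi * Complex.I * m * ((u : ℂ) / (D : ℂ) + (y : ℂ) * Complex.I)))) =
      fun m : ℕ => tau χ * χ (m : ZMod D) * fc f m *
        (Real.exp (-(2 * Real.pi * m) * y) : ℂ) := by
    funext m
    have h4 := (hAN3 D hD χ hχ).2 m
    calc ∑ u ∈ Finset.range D, χ⁻¹ (u : ZMod D) * (fc f m *
          Complex.exp (2 * Real.pi * Complex.I * m * ((u : ℂ) / (D : ℂ) + (y : ℂ) * Complex.I)))
        = ∑ u ∈ Finset.range D, (χ⁻¹ (u : ZMod D) *
            Complex.exp (2 * Real.pi * Complex.I * m * ((u : ℂ) / (D : ℂ)))) *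
            (fc f m * (Real.exp (-(2 * Real.pi * m) * y) : ℂ)) := by
          refine Finset.sum_congr rfl fun u _ => ?_
          rw [exp_split]
          ring
      _ = (χ (m : ZMod D) * tau χ) * (fc f m * (Real.exp (-(2 * Real.pi * m) * y) : ℂ)) := by
          rw [← Finset.sum_mul, h4]
      _ = _ := by ring
  rw [h3] at h2
  exact h2

end Pool.Agent.Helper13.TX
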